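import Pool.Agent.Y387.UQ.Final
import Pool.Agent.Y387.UQ.Example

/-!
# Unique minimal-norm interpolants need not be multiples of inner functions

Let `g` be an element of the unit ball of `H^∞` which extends analytically to a neighbourhood of a
boundary point `ζ` and is unimodular on the unit circle near `ζ`. Then `g` is the unique
minimal-norm interpolant of its own values on every Blaschke sequence which has `ζ` as a cluster
point. The proof combines the Pick inequality for a competitor with Newton interpolation for the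
kernel `(1 - g(z) conj g(w)) / (1 - z conj w)`, which extends analytically in both variables to a
neighbourhood of `ζ` by reflection.

There are such `g` which are invertible in `H^∞` and have modulus `a < 1` on half of the circle.
-/

set_option autoImplicit false

open Complex ComplexConjugate Metric Filter Topology

namespace Pool.Agent.Results.MP_c109b8_an.UnimodularArc

noncomputable section

/-- `g` belongs to `H^∞`: analytic and bounded on the open unit disc. -/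
def InHinf (g : ℂ → ℂ) : Prop :=
  DifferentiableOn ℂ g (ball 0 1) ∧ ∃ M : ℝ, ∀ w ∈ ball (0:ℂ) 1, ‖g w‖ ≤ M

/-- The supremum norm on the open unit disc. -/
def supNorm (g : ℂ → ℂ) : ℝ := ⨆ w : ball (0:ℂ) 1, ‖g w‖

/-- A Blaschke sequence: distinct points of the open unit disc with `∑ (1 - |z_n|) < ∞`. -/
def IsBlaschkeSequence (z : ℕ → ℂ) : Prop :=
  Function.Injective z ∧ (∀ n, ‖z n‖ < 1) ∧ Summable (fun n => 1 - ‖z n‖)

/-- Blaschke products `e^{iθ} w^k ∏_j (|a_j|/a_j) (a_j - w)/(1 - conj(a_j) w)`, where `(a_j)` is a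
finite or infinite family of nonzero points of the disc (repetitions allowed) with
`∑ (1 - |a_j|) < ∞`. -/
def IsBlaschkeProduct (B : ℂ → ℂ) : Prop :=
  ∃ (θ : ℝ) (k : ℕ) (ι : Type) (_ : Countable ι) (a : ι → ℂ),
    (∀ j, a j ≠ 0 ∧ ‖a j‖ < 1) ∧ Summable (fun j => 1 - ‖a j‖) ∧
    ∀ w ∈ ball (0:ℂ) 1, ∃ P : ℂ,
      HasProd (fun j => ((‖a j‖ : ℂ) / a j) * ((a j - w) / (1 - conj (a j) * w))) P ∧
      B w = Complex.exp (θ * I) * w ^ k * P

/-- `g` is a minimal-norm interpolant of `f` on `z`. -/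
def IsMinimalNormInterpolant (f : ℂ → ℂ) (z : ℕ → ℂ) (g : ℂ → ℂ) : Prop :=
  InHinf g ∧ (∀ n, g (z n) = f (z n)) ∧
  ∀ h : ℂ → ℂ, InHinf h → (∀ n, h (z n) = f (z n)) → supNorm g ≤ supNorm h

/-- The minimal-norm interpolant `g` of `f` on `z` is unique (as a function on the disc). -/
def IsUniqueMinimalNormInterpolant (f : ℂ → ℂ) (z : ℕ → ℂ) (g : ℂ → ℂ) : Prop :=
  IsMinimalNormInterpolant f z g ∧
  ∀ h : ℂ → ℂ, IsMinimalNormInterpolant f z h → Set.EqOn h g (ball 0 1)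

/-- `ζ` is a cluster point of the sequence `z`. -/
def IsClusterPoint (ζ : ℂ) (z : ℕ → ℂ) : Prop := ∀ ε : ℝ, 0 < ε → {n | ‖z n - ζ‖ < ε}.Infinite

instance : Nonempty (ball (0:ℂ) 1) := ⟨⟨0, by simp⟩⟩

lemma le_supNorm {g : ℂ → ℂ} (hg : InHinf g) {w : ℂ} (hw : w ∈ ball (0:ℂ) 1) :
    ‖g w‖ ≤ supNorm g := by
  obtain ⟨-, M, hM⟩ := hg
  refine le_ciSup (f := fun w : ball (0:ℂ) 1 => ‖g w‖) ⟨M, ?_⟩ ⟨w, hw⟩
  rintro _ ⟨v, rfl⟩
  exact hM v v.2

lemma supNorm_congr {g h : ℂ → ℂ} (H : Set.EqOn g h (ball 0 1)) : supNorm g = supNorm h := by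
  unfold supNorm
  congr 1
  funext w
  rw [H w.2]

/-- Uniqueness in the unit ball makes `g` the unique minimal-norm interpolant. -/
lemma unique_minimal {g : ℂ → ℂ} (hg : DifferentiableOn ℂ g (ball 0 1))
    (hg1 : ∀ w ∈ ball (0:ℂ) 1, ‖g w‖ ≤ 1) (z : ℕ → ℂ)
    (huniq : ∀ h : ℂ → ℂ, DifferentiableOn ℂ h (ball 0 1) → (∀ ζ ∈ ball (0:ℂ) 1, ‖h ζ‖ ≤ 1) →
      (∀ n, h (z n) = g (z n)) → Set.EqOn h g (ball 0 1)) :
    IsUniqueMinimalNormInterpolant g z g := by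
  have hin : InHinf g := ⟨hg, 1, hg1⟩
  have hle : supNorm g ≤ 1 := ciSup_le (fun w => hg1 w w.2)
  refine ⟨⟨hin, fun _ => rfl, ?_⟩, ?_⟩
  · intro h hh hint
    by_contra hcon
    push Not at hcon
    have h1 := huniq h hh.1 (fun ζ hζ => (le_supNorm hh hζ).trans (hcon.le.trans hle)) hint
    rw [supNorm_congr h1] at hcon
    exact lt_irrefl _ hcon
  · intro h hh
    have h2 := hh.2.2 g hin (fun _ => rfl)
    exact huniq h hh.1.1 (fun ζ hζ => (le_supNorm hh.1 hζ).trans (h2.trans hle)) hh.2.1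

lemma hasProd_zero_of {ι : Type} {f : ι → ℂ} {P : ℂ} (h : HasProd f P) {i : ι} (hi : f i = 0) :
    P = 0 := by
  classical
  have h1 : Tendsto (fun s : Finset ι => ∏ j ∈ s, f j) atTop (𝓝 0) := by
    apply tendsto_const_nhds.congr'
    filter_upwards [eventually_ge_atTop {i}] with s hs
    symm
    exact Finset.prod_eq_zero (hs (Finset.mem_singleton_self i)) hi
  exact tendsto_nhds_unique h h1

/-- A multiple of a Blaschke product without zeros is constant. -/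
lemma const_of_blaschke {g : ℂ → ℂ} (h0 : ∀ w ∈ ball (0:ℂ) 1, g w ≠ 0)
    (hB : ∃ (c : ℂ) (B : ℂ → ℂ), IsBlaschkeProduct B ∧ ∀ w ∈ ball (0:ℂ) 1, g w = c * B w) :
    ∃ K : ℂ, ∀ w ∈ ball (0:ℂ) 1, g w = K := by
  obtain ⟨c, B, ⟨θ, k, ι, _, a, ha, -, hB⟩, hSB⟩ := hB
  have hk : k = 0 := by
    by_contra hk
    obtain ⟨P, -, hP⟩ := hB 0 (by simp)
    have h1 := hSB 0 (by simp)
    rw [hP, zero_pow hk] at h1
    simp only [mul_zero, zero_mul] at h1
    exact h0 0 (by simp) h1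
  subst hk
  by_cases hι : Nonempty ι
  · obtain ⟨i⟩ := hι
    have hmem : a i ∈ ball (0:ℂ) 1 := by simpa using (ha i).2
    obtain ⟨P, hP1, hP2⟩ := hB (a i) hmem
    have hP0 : P = 0 := hasProd_zero_of hP1 (i := i) (by simp)
    have h1 := hSB (a i) hmem
    rw [hP2, hP0, mul_zero, mul_zero] at h1
    exact absurd h1 (h0 _ hmem)
  · rw [not_nonempty_iff] at hι
    refine ⟨c * Complex.exp (θ * I), ?_⟩
    intro w hw
    obtain ⟨P, hP1, hP2⟩ := hB w hw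
    have hP : P = 1 := hP1.unique hasProd_empty
    rw [hSB w hw, hP2, hP]
    simp

lemma q_le (n : ℕ) : (1/2:ℝ) ^ (n + 1) ≤ 1/2 := by
  rw [pow_succ]
  have : (1/2:ℝ) ^ n ≤ 1 := pow_le_one₀ (by norm_num) (by norm_num)
  linarith

lemma exists_seq (ζ : ℂ) (hζ : ‖ζ‖ = 1) :
    ∃ z : ℕ → ℂ, IsBlaschkeSequence z ∧ Tendsto z atTop (𝓝 ζ) := by
  have hn : ∀ n : ℕ, ‖ζ * ((1 - (1/2:ℝ) ^ (n + 1) : ℝ) : ℂ)‖ = 1 - (1/2:ℝ) ^ (n + 1) := by
    intro n
    rw [norm_mul, hζ, one_mul, Complex.norm_real, Real.norm_of_nonneg]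
    have := q_le n
    linarith
  refine ⟨fun n => ζ * ((1 - (1/2:ℝ) ^ (n + 1) : ℝ) : ℂ), ⟨?_, ?_, ?_⟩, ?_⟩
  · intro m n hmn
    have h1 := congrArg norm hmn
    simp only at h1
    rw [hn, hn] at h1
    have h2 : (1/2:ℝ) ^ (m + 1) = (1/2:ℝ) ^ (n + 1) := by linarith
    have h3 := pow_right_injective₀ (by norm_num : (0:ℝ) < 1/2) (by norm_num) h2
    omega
  · intro n
    rw [hn]
    have : (0:ℝ) < (1/2) ^ (n + 1) := by positivity
    linarith
  · have h1 : (fun n : ℕ => 1 - ‖ζ * ((1 - (1/2:ℝ) ^ (n + 1) : ℝ) : ℂ)‖) =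
        fun n : ℕ => (1/2:ℝ) ^ (n + 1) := by
      funext n
      rw [hn]
      ring
    rw [h1]
    exact (summable_nat_add_iff 1).2 summable_geometric_two
  · have h1 : Tendsto (fun n : ℕ => (1/2:ℝ) ^ (n + 1)) atTop (𝓝 0) :=
      (tendsto_pow_atTop_nhds_zero_of_lt_one (by norm_num) (by norm_num)).comp
        (tendsto_add_atTop_nat 1)
    have h2 : Tendsto (fun n : ℕ => 1 - (1/2:ℝ) ^ (n + 1)) atTop (𝓝 1) := by
      have := h1.const_sub 1
      rwa [sub_zero] at this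
    have h3 := ((Complex.continuous_ofReal.tendsto 1).comp h2).const_mul ζ
    simpa using h3

lemma cluster_of_tendsto {ζ : ℂ} {z : ℕ → ℂ} (h : Tendsto z atTop (𝓝 ζ)) : IsClusterPoint ζ z := by
  intro ε hε
  rw [← Nat.frequently_atTop_iff_infinite]
  apply Eventually.frequently
  have := Metric.tendsto_nhds.1 h ε hε
  simpa [dist_eq_norm] using this

lemma neBot {ζ : ℂ} (hζ : ‖ζ‖ = 1) : NeBot (𝓝[ball (0:ℂ) 1] ζ) := by
  apply mem_closure_iff_nhdsWithin_neBot.1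
  rw [closure_ball _ one_ne_zero, mem_closedBall_zero_iff, hζ]

/-- The general theorem. -/
lemma general (g : ℂ → ℂ) (ζ : ℂ) (r : ℝ) (hζ : ‖ζ‖ = 1) (hr : 0 < r)
    (hg : DifferentiableOn ℂ g (ball 0 1 ∪ ball ζ r)) (hg1 : ∀ w ∈ ball (0:ℂ) 1, ‖g w‖ ≤ 1)
    (hu : ∀ x ∈ ball ζ r, ‖x‖ = 1 → ‖g x‖ = 1) (z : ℕ → ℂ) (hz : IsBlaschkeSequence z)
    (hc : IsClusterPoint ζ z) : IsUniqueMinimalNormInterpolant g z g := by
  apply unique_minimal (hg.mono Set.subset_union_left) hg1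
  intro h hh hb hgz
  exact Pool.Agent.Y387.UQ.unique hζ hr hg hu z hz.1 hz.2.1 hc hh hb hgz

open Pool.Agent.Y387.UQ in
/-- The example. -/
lemma example_fn (a : ℝ) (ha : 0 < a) (ha1 : a < 1) : ∃ g : ℂ → ℂ,
    DifferentiableOn ℂ g (ball 0 1) ∧ (∀ w ∈ ball (0:ℂ) 1, a < ‖g w‖ ∧ ‖g w‖ < 1) ∧
    (∀ ζ : ℂ, ‖ζ‖ = 1 → 0 < ζ.im → Tendsto (fun w => ‖g w‖) (𝓝[ball 0 1] ζ) (𝓝 a)) ∧
    (∀ ζ : ℂ, ‖ζ‖ = 1 → ζ.im < 0 → Tendsto (fun w => ‖g w‖) (𝓝[ball 0 1] ζ) (𝓝 1)) ∧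
    (¬ ∃ (c : ℂ) (B : ℂ → ℂ), IsBlaschkeProduct B ∧ ∀ w ∈ ball (0:ℂ) 1, g w = c * B w) ∧
    ∀ z : ℕ → ℂ, IsBlaschkeSequence z →
      (∃ ζ : ℂ, ‖ζ‖ = 1 ∧ ζ.im < 0 ∧ IsClusterPoint ζ z) →
      IsUniqueMinimalNormInterpolant g z g := by
  set t : ℝ := -Real.log a / Real.pi with ht
  have ht0 : 0 < t := div_pos (neg_pos.2 (Real.log_neg ha ha1)) Real.pi_pos
  have hta : Real.exp (-(t * Real.pi)) = a := by
    rw [ht, div_mul_cancel₀ _ Real.pi_ne_zero, neg_neg, Real.exp_log ha]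
  have hmem : ∀ w ∈ ball (0:ℂ) 1, ‖w‖ < 1 := fun w hw => by simpa using hw
  have hup : ∀ ζ : ℂ, ‖ζ‖ = 1 → 0 < ζ.im →
      Tendsto (fun w => ‖E t w‖) (𝓝[ball 0 1] ζ) (𝓝 a) := by
    intro ζ hζ him
    have := (E_cont t him.ne').norm.tendsto
    rw [E_upper t hζ him, hta] at this
    exact this.mono_left nhdsWithin_le_nhds
  have hlow : ∀ ζ : ℂ, ‖ζ‖ = 1 → ζ.im < 0 →
      Tendsto (fun w => ‖E t w‖) (𝓝[ball 0 1] ζ) (𝓝 1) := by
    intro ζ hζ him
    have := (E_cont t him.ne).norm.tendsto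
    rw [E_lower t hζ him] at this
    exact this.mono_left nhdsWithin_le_nhds
  refine ⟨E t, (E_diff t).mono Set.subset_union_left, ?_, hup, hlow, ?_, ?_⟩
  · intro w hw
    refine ⟨?_, E_lt_one ht0 (hmem w hw)⟩
    rw [← hta]
    exact lt_E ht0 (hmem w hw)
  · intro hB
    obtain ⟨K, hK⟩ := const_of_blaschke (fun w _ => E_ne_zero t w) hB
    have hI : ‖I‖ = 1 := Complex.norm_I
    have hI' : ‖-I‖ = 1 := by rw [norm_neg, Complex.norm_I]
    have e1 : Tendsto (fun _ : ℂ => ‖K‖) (𝓝[ball 0 1] I) (𝓝 a) := by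
      apply (hup I hI (by simp)).congr'
      filter_upwards [self_mem_nhdsWithin] with w hw
      rw [hK w hw]
    have e2 : Tendsto (fun _ : ℂ => ‖K‖) (𝓝[ball 0 1] (-I)) (𝓝 1) := by
      apply (hlow (-I) hI' (by simp)).congr'
      filter_upwards [self_mem_nhdsWithin] with w hw
      rw [hK w hw]
    have := neBot hI
    have := neBot hI'
    have e3 := tendsto_nhds_unique e1 tendsto_const_nhds
    have e4 := tendsto_nhds_unique e2 tendsto_const_nhds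
    linarith
  · rintro z hz ⟨ζ, hζ, him, hc⟩
    have hsub : ball ζ (-ζ.im) ⊆ {z : ℂ | z.im < 0} := by
      intro x hx
      rw [mem_ball, dist_eq_norm] at hx
      have h1 : |(x - ζ).im| ≤ ‖x - ζ‖ := Complex.abs_im_le_norm _
      rw [Complex.sub_im] at h1
      have h2 := le_abs_self (x.im - ζ.im)
      rw [Set.mem_ofPred_eq]
      linarith
    apply general (E t) ζ (-ζ.im) hζ (by linarith)
      ((E_diff t).mono (Set.union_subset_union_right _ hsub))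
      (fun w hw => (E_lt_one ht0 (hmem w hw)).le) _ z hz hc
    intro x hx hx1
    exact E_lower t hx1 (hsub hx)

/-- (1) Let `g` be analytic with `|g| ≤ 1` on the unit disc, analytic near the boundary point `ζ`
and unimodular on the unit circle near `ζ`. For every Blaschke sequence with cluster point `ζ`, `g`
is the unique minimal-norm interpolant of its values.

(2) For every `0 < a < 1` there is such a `g` (for all `ζ` on the open lower half circle) with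
`a < |g| < 1` on the disc, so that `g` is invertible in `H^∞`, whose modulus tends to `a` at every
point of the open upper half circle; it is not a constant multiple of a Blaschke product.

(3) Every point of the circle is the limit of a Blaschke sequence.

(4) Q1 has a negative answer. -/
theorem result :
    (∀ (g : ℂ → ℂ) (ζ : ℂ) (r : ℝ), ‖ζ‖ = 1 → 0 < r →
      DifferentiableOn ℂ g (ball 0 1 ∪ ball ζ r) → (∀ w ∈ ball (0:ℂ) 1, ‖g w‖ ≤ 1) →
      (∀ x ∈ ball ζ r, ‖x‖ = 1 → ‖g x‖ = 1) →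
      ∀ z : ℕ → ℂ, IsBlaschkeSequence z → IsClusterPoint ζ z →
        IsUniqueMinimalNormInterpolant g z g) ∧
    (∀ a : ℝ, 0 < a → a < 1 → ∃ g : ℂ → ℂ,
      DifferentiableOn ℂ g (ball 0 1) ∧ (∀ w ∈ ball (0:ℂ) 1, a < ‖g w‖ ∧ ‖g w‖ < 1) ∧
      (∀ ζ : ℂ, ‖ζ‖ = 1 → 0 < ζ.im → Tendsto (fun w => ‖g w‖) (𝓝[ball 0 1] ζ) (𝓝 a)) ∧
      (∀ ζ : ℂ, ‖ζ‖ = 1 → ζ.im < 0 → Tendsto (fun w => ‖g w‖) (𝓝[ball 0 1] ζ) (𝓝 1)) ∧
      (¬ ∃ (c : ℂ) (B : ℂ → ℂ), IsBlaschkeProduct B ∧ ∀ w ∈ ball (0:ℂ) 1, g w = c * B w) ∧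
      ∀ z : ℕ → ℂ, IsBlaschkeSequence z →
        (∃ ζ : ℂ, ‖ζ‖ = 1 ∧ ζ.im < 0 ∧ IsClusterPoint ζ z) →
        IsUniqueMinimalNormInterpolant g z g) ∧
    (∀ ζ : ℂ, ‖ζ‖ = 1 → ∃ z : ℕ → ℂ, IsBlaschkeSequence z ∧ Tendsto z atTop (𝓝 ζ)) ∧
    ¬ ∀ (f : ℂ → ℂ) (z : ℕ → ℂ), InHinf f → IsBlaschkeSequence z →
      ∀ g : ℂ → ℂ, IsUniqueMinimalNormInterpolant f z g →
        ∃ (c : ℂ) (B : ℂ → ℂ), IsBlaschkeProduct B ∧ ∀ w ∈ ball (0:ℂ) 1, g w = c * B w := by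
  refine ⟨general, example_fn, exists_seq, ?_⟩
  intro H
  obtain ⟨g, hg, hb, -, -, hnot, hu⟩ := example_fn (1/2) (by norm_num) (by norm_num)
  have hI' : ‖-I‖ = 1 := by rw [norm_neg, Complex.norm_I]
  obtain ⟨z, hz, hzt⟩ := exists_seq (-I) hI'
  exact hnot (H g z ⟨hg, 1, fun w hw => (hb w hw).2.le⟩ hz g
    (hu z hz ⟨-I, hI', by simp, cluster_of_tendsto hzt⟩))

end

end Pool.Agent.Results.MP_c109b8_an.UnimodularArc
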